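import Pool.Agent.T9h5.GS.Form

/-!
# Quadrics over arbitrary fields: the limit
-/

set_option autoImplicit false

namespace Pool.Agent.T9h5.GS

open MvPolynomial Pool.Agent.T9h5.KV

section

variable {k K : Type} [Field k] [Field K] [Algebra k K] (V : TateCount k K)

/-- an isotropic vector with first coordinate `1` -/
theorem exists_zero [CharZero K] (a : ℕ → k) (m : ℕ) (ha : ∀ i < m, a i ≠ 0)
    (h : ¬ Aniso K a m) :
    ∃ z : ℕ → K, z 0 = 1 ∧ ∑ i ∈ Finset.range m, algebraMap k K (a i) * z i ^ 2 = 0 ∧ 0 < m := by
  classical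
  unfold Aniso at h
  push Not at h
  obtain ⟨v, hv, j, hj, hvj⟩ := h
  by_cases h0 : v 0 = 0
  · have hj0 : j ≠ 0 := by
      rintro rfl
      exact hvj h0
    have haj : algebraMap k K (a j) ≠ 0 := (map_ne_zero _).2 (ha j hj)
    set A : ℕ → K := fun i => algebraMap k K (a i) with hA
    set β : K := -(A 0 + A j) / (2 * A j * v j) with hβ
    have hβ' : 2 * β * A j * v j = -(A 0 + A j) := by
      have h2 : (2 : K) ≠ 0 := two_ne_zero
      have hAj : A j ≠ 0 := haj
      rw [hβ]
      field_simp
    refine ⟨fun i => (if i = 0 then 1 else 0) + (if i = j then 1 else 0) + β * v i, ?_, ?_,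
      by omega⟩
    · simp [h0, Ne.symm hj0]
    · have h1 : ∀ i, A i * ((if i = 0 then 1 else 0) + (if i = j then 1 else 0) + β * v i) ^ 2 =
          (if i = 0 then A 0 else 0) + (if i = j then A j + 2 * β * A j * v j else 0) +
            β ^ 2 * (A i * v i ^ 2) := by
        intro i
        by_cases hi0 : i = 0
        · subst hi0
          simp [h0, Ne.symm hj0]
        · by_cases hij : i = j
          · subst hij
            simp [hi0]
            ring
          · simp [hi0, hij]
            ring
      rw [Finset.sum_congr rfl (fun i _ => h1 i), Finset.sum_add_distrib, Finset.sum_add_distrib,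
        ← Finset.mul_sum, hv, Finset.sum_ite_eq', Finset.sum_ite_eq',
        if_pos (Finset.mem_range.2 (by omega)), if_pos (Finset.mem_range.2 hj), hβ']
      ring
  · refine ⟨fun i => v i / v 0, div_self h0, ?_, by omega⟩
    have h1 : ∀ i, algebraMap k K (a i) * (v i / v 0) ^ 2 =
        (1 / v 0 ^ 2) * (algebraMap k K (a i) * v i ^ 2) := by
      intro i
      field_simp
    rw [Finset.sum_congr rfl (fun i _ => h1 i), ← Finset.mul_sum, hv, mul_zero]

/-- the point of the stratum `x_w = 1` -/
theorem phi_form_iso [CharZero K] (a : ℕ → k) (n w : ℕ) (hw : 2 * w + 2 ≤ n)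
    (ha : ∀ i < n + 1 - 2 * w, a i ≠ 0) (h : ¬ Aniso K a (n + 1 - 2 * w)) :
    1 ≤ phi V w (∑ i ∈ Finset.range (n + 1), cls (zeros (restr i (form a n w))) (1 - n)) := by
  classical
  obtain ⟨z, hz0, hz, -⟩ := exists_zero a _ ha h
  have hcf : ∀ P : Polynomial ℤ, cf P (1 - (n : ℤ) + (w : ℕ)) = P.coeff (n - 1 - w) := by
    intro P
    unfold cf
    rw [if_pos (by omega)]
    congr 1
    omega
  have hnn : ∀ i ∈ Finset.range (n + 1), i ≠ w →
      0 ≤ phi V w (cls (zeros (restr i (form a n w))) (1 - n)) := by
    intro i hi hiw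
    rw [Finset.mem_range] at hi
    rw [phi_cls]
    rcases lt_or_ge i w with h2 | h2
    · rw [V.iso _ _ (form_iso_small a n w i (by omega) h2), tau_affine, cf_pow _ _ _ (by omega),
        if_neg (by omega)]
    · rw [hcf]
      apply V.nonneg
      refine (dim_zeros _).trans ?_
      exact_mod_cast (by omega : n - i ≤ n - 1 - w)
  have hmain : 1 ≤ phi V w (cls (zeros (restr w (form a n w))) (1 - n)) := by
    rw [phi_cls, hcf]
    have hnw : n - w = (n - 1 - w) + 1 := by omega
    -- the point
    let y : Fin (n - w) → K := fun l => if (l : ℕ) + 1 + 2 * w ≤ n then z ((l : ℕ) + 1) else 0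
    have hext : ∀ l < n + 1 - 2 * w, ext0 (pt w y) w l = z l := by
      intro l hl
      unfold ext0
      rw [dif_pos (by omega)]
      unfold pt
      rcases Nat.eq_zero_or_pos l with h0 | h0
      · subst h0
        rw [dif_neg (by change ¬ (w < w + 0); omega), if_pos (by change w + 0 = w; omega), hz0]
      · rw [dif_pos (by change w < w + l; omega)]
        change (if (w + l - w - 1) + 1 + 2 * w ≤ n then z ((w + l - w - 1) + 1) else 0) = z l
        rw [if_pos (by omega)]
        congr 1
        omega
    have hy : aeval y (restr w (form a n w)) = 0 := by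
      rw [aeval_form a n w w (by omega) le_rfl]
      rw [← hz]
      apply Finset.sum_congr rfl
      intro l hl
      rw [hext l (Finset.mem_range.1 hl)]
    -- another nonzero coordinate
    have hex : ∃ l, 0 < l ∧ l < n + 1 - 2 * w ∧ z l ≠ 0 := by
      by_contra hcon
      push Not at hcon
      rw [Finset.sum_eq_single 0] at hz
      · rw [hz0, one_pow, mul_one] at hz
        exact ha 0 (by omega) ((map_eq_zero _).1 hz)
      · intro l hl hl0
        rw [hcon l (by omega) (Finset.mem_range.1 hl)]
        simp
      · intro h0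
        exact absurd (Finset.mem_range.2 (by omega)) h0
    obtain ⟨l, hl0, hl, hzl⟩ := hex
    have hlt : l - 1 < n - w := by omega
    have hder : aeval y (pderiv (⟨l - 1, hlt⟩ : Fin (n - w)) (restr w (form a n w))) ≠ 0 := by
      have hwl : w + l < n + 1 := by omega
      have e1 : pderiv (⟨l - 1, hlt⟩ : Fin (n - w)) (restr w (form a n w)) =
          C (a l) * (2 * X (⟨l - 1, hlt⟩ : Fin (n - w))) := by
        rw [restr_form, map_add, map_sum, map_sum, Finset.sum_eq_zero, zero_add,
          Finset.sum_eq_single (⟨w + l, hwl⟩ : Fin (n + 1))]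
        · have h1 : sub k w (⟨w + l, hwl⟩ : Fin (n + 1)) = X (⟨l - 1, hlt⟩ : Fin (n - w)) := by
            unfold sub
            rw [dif_pos (by change w < w + l; omega)]
            congr 1
            apply Fin.ext
            change w + l - w - 1 = l - 1
            omega
          have h2 : a (((⟨w + l, hwl⟩ : Fin (n + 1)) : ℕ) - w) = a l := by
            congr 1
            change w + l - w = l
            omega
          rw [h1, h2, Derivation.leibniz, Derivation.leibniz_pow, pderiv_X_self, pderiv_C]
          simp [nsmul_eq_mul]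
        · intro l' hl' hne
          rw [Finset.mem_filter] at hl'
          have h1 : pderiv (⟨l - 1, hlt⟩ : Fin (n - w)) (sub k w l') = 0 := by
            unfold sub
            split_ifs with h3 h4
            · rw [pderiv_X_of_ne]
              intro h5
              apply hne
              have h6 := congrArg Fin.val h5
              simp only at h6
              apply Fin.ext
              change (l' : ℕ) = w + l
              omega
            · simp
            · simp
          rw [Derivation.leibniz, Derivation.leibniz_pow, h1, pderiv_C]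
          simp
        · intro h0
          exfalso
          apply h0
          rw [Finset.mem_filter]
          refine ⟨Finset.mem_univ _, ?_, ?_⟩
          · change w ≤ w + l
            omega
          · change w + l + w ≤ n
            omega
        · intro l' hl'
          rw [Finset.mem_filter] at hl'
          rw [sub_lt l' hl'.2, zero_mul, map_zero]
      rw [e1, map_mul, map_mul, aeval_C, aeval_X]
      have h3 : y ⟨l - 1, hlt⟩ = z l := by
        change (if l - 1 + 1 + 2 * w ≤ n then z (l - 1 + 1) else 0) = z l
        rw [if_pos (by omega)]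
        congr 1
        omega
      rw [h3]
      have h4 : algebraMap k K (a l) ≠ 0 := (map_ne_zero _).2 (ha l hl)
      have h5 : (aeval y (2 : MvPolynomial (Fin (n - w)) k) : K) = 2 := by
        rw [map_ofNat]
      rw [h5]
      exact mul_ne_zero h4 (mul_ne_zero two_ne_zero hzl)
    have key : ∀ (r m : ℕ) (hr : r = m + 1) (f : MvPolynomial (Fin r) k) (y : Fin r → K),
        aeval y f = 0 → (∃ i, aeval y (pderiv i f) ≠ 0) → 1 ≤ (V.τ (zeros f)).coeff m := by
      intro r m hr f y h1 h2
      subst hr
      exact V.smoothPoint m f y h1 h2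
    exact key _ _ hnw _ y hy ⟨_, hder⟩
  rw [map_sum, ← Finset.add_sum_erase _ _ (Finset.mem_range.2 (by omega : w < n + 1))]
  have : 0 ≤ ∑ i ∈ (Finset.range (n + 1)).erase w,
      phi V w (cls (zeros (restr i (form a n w))) (1 - n)) := by
    apply Finset.sum_nonneg
    intro i hi
    rw [Finset.mem_erase] at hi
    exact hnn i hi.2 hi.1
  omega

end

section

variable {k : Type} [Field k]

theorem pderiv_form (a : ℕ → k) (n w : ℕ) (j : Fin (n + 1)) : pderiv j (form a n w) =
    (∑ l ∈ Finset.univ.filter (fun l : Fin (n + 1) => (l : ℕ) < w),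
      (X l * (if l.rev = j then 1 else 0) + X l.rev * (if l = j then 1 else 0))) +
    ∑ l ∈ Finset.univ.filter (fun l : Fin (n + 1) => w ≤ (l : ℕ) ∧ (l : ℕ) + w ≤ n),
      C (a ((l : ℕ) - w)) * (2 * X l * (if l = j then 1 else 0)) := by
  unfold form
  rw [map_add, map_sum, map_sum]
  congr 1
  · apply Finset.sum_congr rfl
    intro l _
    rw [Derivation.leibniz, pderiv_X, pderiv_X]
    simp only [Pi.single_apply, smul_eq_mul, eq_comm]
  · apply Finset.sum_congr rfl
    intro l _
    rw [Derivation.leibniz, Derivation.leibniz_pow, pderiv_X, pderiv_C]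
    simp only [Pi.single_apply, smul_eq_mul, nsmul_eq_mul, eq_comm]
    norm_num

theorem form_smooth (h2k : (2 : k) ≠ 0) (a : ℕ → k) (n w : ℕ) (hw : 2 * w ≤ n + 1)
    (ha : ∀ i < n + 1 - 2 * w, a i ≠ 0) : IsSmooth 2 (form a n w) := by
  refine ⟨?_, ?_⟩
  · unfold form
    apply MvPolynomial.IsHomogeneous.add
    · apply MvPolynomial.IsHomogeneous.sum
      intro i _
      exact (isHomogeneous_X k _).mul (isHomogeneous_X k _)
    · apply MvPolynomial.IsHomogeneous.sum
      intro i _
      simpa using (isHomogeneous_C (Fin (n + 1)) (a ((i : ℕ) - w))).mul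
        ((isHomogeneous_X k i).pow 2)
  · intro x _ h
    have h2K : (2 : AlgebraicClosure k) ≠ 0 := by
      intro h0
      apply h2k
      apply (algebraMap k (AlgebraicClosure k)).injective
      rw [map_ofNat, map_zero, h0]
    have hrev : ∀ l : Fin (n + 1), (l.rev : ℕ) = n - l := fun l => by
      rw [Fin.val_rev]
      omega
    have h1 : ∀ j : Fin (n + 1), (j : ℕ) < w → x j.rev = 0 := by
      intro j hj
      have h2 := h j
      rw [pderiv_form] at h2
      rw [Finset.sum_eq_single j, Finset.sum_eq_zero] at h2
      · have h3 : j.rev ≠ j := by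
          intro h4
          have := congrArg Fin.val h4
          rw [hrev] at this
          omega
        simpa [h3] using h2
      · intro l hl
        rw [Finset.mem_filter] at hl
        rw [if_neg (by rintro rfl; omega), mul_zero, mul_zero]
      · intro l hl hlj
        rw [Finset.mem_filter] at hl
        rw [if_neg hlj, if_neg, mul_zero, mul_zero, add_zero]
        intro h4
        have := congrArg Fin.val h4
        rw [hrev] at this
        omega
      · intro h3
        exact (h3 (by rw [Finset.mem_filter]; exact ⟨Finset.mem_univ _, hj⟩)).elim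
    have h1' : ∀ j : Fin (n + 1), (j : ℕ) < w → x j = 0 := by
      intro j hj
      have h2 := h j.rev
      rw [pderiv_form] at h2
      rw [Finset.sum_eq_single j, Finset.sum_eq_zero] at h2
      · have h3 : j ≠ j.rev := by
          intro h4
          have := congrArg Fin.val h4
          rw [hrev] at this
          omega
        simpa [h3] using h2
      · intro l hl
        rw [Finset.mem_filter] at hl
        rw [if_neg, mul_zero, mul_zero]
        rintro rfl
        have := hrev j
        omega
      · intro l hl hlj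
        rw [Finset.mem_filter] at hl
        rw [if_neg, if_neg, mul_zero, mul_zero, add_zero]
        · intro h4
          have := congrArg Fin.val h4
          rw [hrev] at this
          omega
        · intro h4
          exact hlj (Fin.rev_injective h4)
      · intro h3
        exact (h3 (by rw [Finset.mem_filter]; exact ⟨Finset.mem_univ _, hj⟩)).elim
    have h2 : ∀ j : Fin (n + 1), w ≤ (j : ℕ) → (j : ℕ) + w ≤ n → x j = 0 := by
      intro j hj hj'
      have h2 := h j
      have haj : algebraMap k (AlgebraicClosure k) (a ((j : ℕ) - w)) ≠ 0 :=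
        (map_ne_zero _).2 (ha _ (by omega))
      rw [pderiv_form, Finset.sum_eq_zero, Finset.sum_eq_single j] at h2
      · simp only [if_true, mul_one, zero_add, map_mul, aeval_C, aeval_X, map_ofNat] at h2
        rcases mul_eq_zero.1 h2 with h3 | h3
        · exact absurd h3 haj
        · rcases mul_eq_zero.1 h3 with h4 | h4
          · exact absurd h4 h2K
          · exact h4
      · intro l _ hlj
        rw [if_neg hlj, mul_zero, mul_zero]
      · intro h3
        exact absurd (Finset.mem_filter.2 ⟨Finset.mem_univ _, hj, hj'⟩) h3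
      · intro l hl
        rw [Finset.mem_filter] at hl
        rw [if_neg, if_neg, mul_zero, mul_zero, add_zero]
        · rintro rfl
          omega
        · rintro rfl
          have := hrev l
          omega
    funext j
    rcases lt_or_ge (j : ℕ) w with h3 | h3
    · exact h1' j h3
    · rcases le_or_gt ((j : ℕ) + w) n with h4 | h4
      · exact h2 j h3 h4
      · have h5 := h1 j.rev (by rw [hrev]; omega)
        rwa [Fin.rev_rev] at h5

end

section

variable {k : Type} [Field k] [CharZero k]

/-- if the limit exists, the Witt index tends to infinity -/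
theorem toInfinity (T : ∀ (K : Type) [Field K] [Algebra k K], IsSpecial 2 K → TateCount k K)
    (H : Hoffmann k) (w : ℕ → ℕ) (a : ℕ → ℕ → k) (hw : ∀ n, 2 * w n ≤ n + 1)
    (ha : ∀ n, Aniso k (a n) (n + 1 - 2 * w n))
    (hl : HasLimit k (xseq fun n => form (a n) n (w n))) : ToInfinity w := by
  classical
  by_contra hcon
  unfold ToInfinity at hcon
  push Not at hcon
  -- the smallest value which is taken infinitely often
  have hex : ∃ c, ∀ N, ∃ n, N ≤ n ∧ w n ≤ c := by
    obtain ⟨c, hc⟩ := hcon
    exact ⟨c, fun N => by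
      obtain ⟨n, hn, h⟩ := hc N
      exact ⟨n, hn, h.le⟩⟩
  set c := Nat.find hex with hc
  have hc1 : ∀ N, ∃ n, N ≤ n ∧ w n ≤ c := Nat.find_spec hex
  have hc2 : ∃ N, ∀ n, N ≤ n → c ≤ w n := by
    rcases Nat.eq_zero_or_pos c with h0 | h0
    · exact ⟨0, fun n _ => by omega⟩
    · have h1 := Nat.find_min hex (m := c - 1) (by omega)
      push Not at h1
      obtain ⟨N, hN⟩ := h1
      exact ⟨N, fun n hn => by have := hN n hn; omega⟩
  obtain ⟨N₁, hN₁⟩ := hc2
  have hinf : ∀ N, ∃ n, N ≤ n ∧ w n = c := by
    intro N
    obtain ⟨n, hn, h1⟩ := hc1 (max N N₁)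
    exact ⟨n, (le_max_left _ _).trans hn, le_antisymm h1 (hN₁ n ((le_max_right _ _).trans hn))⟩
  obtain ⟨y, -, hy⟩ := hl
  obtain ⟨N, hN⟩ := hy (c + 1)
  obtain ⟨n₁, hn₁, hw₁⟩ := hinf (max N (2 * c + 2))
  obtain ⟨n₂, hn₂, hw₂⟩ := hinf (max N (2 * c + 2 + 2 ^ (n₁ + 1)))
  have hn₁' : 2 * c + 2 ≤ n₁ := (le_max_right _ _).trans hn₁
  have hn₂' : 2 * c + 2 + 2 ^ (n₁ + 1) ≤ n₂ := (le_max_right _ _).trans hn₂
  have hlt : n₁ + 1 < 2 ^ (n₁ + 1) := Nat.lt_two_pow_self
  obtain ⟨K, hK1, hK2, hsp, hA1, hA2⟩ := H (n₁ + 1 - 2 * w n₁) (n₂ + 1 - 2 * w n₂) (n₁ + 1)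
    (a n₁) (a n₂) (by omega) (by omega) (ha n₁) (ha n₂)
  let V : TateCount k K := T K hsp
  have hchar : CharZero K := charZero_of_injective_algebraMap (algebraMap k K).injective
  have h1 : (QuotientAddGroup.mk (xseq (fun n => form (a n) n (w n)) n₁) : M k ⧸ Fil k (c + 1)) =
      QuotientAddGroup.mk (xseq (fun n => form (a n) n (w n)) n₂) := by
    rw [hN n₁ ((le_max_left _ _).trans hn₁), hN n₂ ((le_max_left _ _).trans hn₂)]
  rw [QuotientAddGroup.eq] at h1
  have h2 := phi_fil V c _ h1
  rw [map_add, map_neg] at h2
  have e1 : phi V c (xseq (fun n => form (a n) n (w n)) n₁) = -1 := by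
    unfold xseq
    rw [map_sub, phi_proj V c n₁ (by omega), ← hw₁,
      phi_form_aniso V (a n₁) n₁ (w n₁) (by omega) hA1]
    norm_num
  have e2 : 0 ≤ phi V c (xseq (fun n => form (a n) n (w n)) n₂) := by
    unfold xseq
    rw [map_sub, phi_proj V c n₂ (by omega), ← hw₂]
    have := phi_form_iso V (a n₂) n₂ (w n₂) (by omega) (fun i hi => coef_ne (ha n₂) hi) hA2
    dsimp only
    omega
  omega

end

end Pool.Agent.T9h5.GS
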