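import Pool.Agent.T9h5.KV.Even

/-!
# Counting Tate motives: definitions
-/

set_option autoImplicit false

namespace Pool.Agent.T9h5.GS

open MvPolynomial Pool.Agent.T9h5.KV

/-- The polynomial `τ(X) = ∑_i t_i(X) u^i ∈ ℤ[u]` of the varieties `X` over a field `k` of
characteristic `0`. Here `K` is an extension field of `k` all of whose finite extensions have degree
a power of a prime `p`, and `t_i(X)` is the number of summands `𝔽_p(i)` of the Chow motive with
compact supports of `X_K` with coefficients `𝔽_p`. -/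
structure TateCount (k K : Type) [Field k] [Field K] [Algebra k K] where
  /-- the polynomial -/
  τ : Aff k → Polynomial ℤ
  iso : ∀ X Y, Iso X Y → τ X = τ Y
  cut : ∀ X Z U, Cut X Z U → τ X = τ Z + τ U
  line : ∀ X Y, IsLine X Y → τ Y = Polynomial.X * τ X
  point : ∀ X : Aff k, Nonempty (X.O ≃ₐ[k] k) → τ X = 1
  /-- varieties without `K`-points -/
  empty : ∀ X : Aff k, IsEmpty (X.O →ₐ[k] K) → τ X = 0
  degree : ∀ (X : Aff k) (D : ℕ), ringKrullDim X.O ≤ D → (τ X).natDegree ≤ D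
  nonneg : ∀ (X : Aff k) (D : ℕ), ringKrullDim X.O ≤ D → 0 ≤ (τ X).coeff D
  /-- a hypersurface in the affine space with a smooth `K`-point -/
  smoothPoint : ∀ (m : ℕ) (f : MvPolynomial (Fin (m + 1)) k) (y : Fin (m + 1) → K),
    aeval y f = 0 → (∃ i, aeval y (pderiv i f) ≠ 0) → 1 ≤ (τ (zeros f)).coeff m

section

variable {k : Type} [Field k] (K : Type) [Field K] [Algebra k K]

/-- The hypersurface `F = 0` has no `K`-points. -/
def NoPoints {n : ℕ} (F : MvPolynomial (Fin (n + 1)) k) : Prop :=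
  ∀ x : Fin (n + 1) → K, aeval x F = 0 → x = 0

/-- The hypersurface has a smooth `K`-point with `x_0 = 1`. -/
def HasPoint {n : ℕ} (F : MvPolynomial (Fin (n + 1)) k) : Prop :=
  ∃ y : Fin (n - 0) → K, aeval y (restr 0 F) = 0 ∧ ∃ i, aeval y (pderiv i (restr 0 F)) ≠ 0

end

/-- `ℤ_(p)`: the rational numbers with denominator prime to `p`. -/
def Zp (p : ℕ) [Fact p.Prime] : AddSubgroup ℚ where
  carrier := {q | ∃ m : ℕ, ¬ p ∣ m ∧ ∃ a : ℤ, (m : ℚ) * q = a}
  zero_mem' := ⟨1, (Fact.out : p.Prime).one_lt.ne' ∘ Nat.dvd_one.1, 0, by simp⟩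
  add_mem' := by
    rintro x y ⟨m, hm, a, ha⟩ ⟨m', hm', a', ha'⟩
    refine ⟨m * m', fun h => ((Fact.out : p.Prime).dvd_mul.1 h).elim hm hm', m' * a + m * a', ?_⟩
    push_cast
    rw [← ha, ← ha']
    ring
  neg_mem' := by
    rintro x ⟨m, hm, a, ha⟩
    exact ⟨m, hm, -a, by push_cast; rw [← ha]; ring⟩

/-- the direct sum of countably many copies of `ℤ_(p)`, ordered lexicographically -/
abbrev Gam (p : ℕ) [Fact p.Prime] : Type := Lex (ℕ →₀ Zp p)

/-- The field `ℂ((Γ))` of generalised power series with exponents in `Γ = Gam p`; its finite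
extensions have degree a power of `p`. -/
abbrev Fld (p : ℕ) [Fact p.Prime] : Type := HahnSeries (Gam p) ℂ

/-- the exponent `e_i` -/
noncomputable def expo (p : ℕ) [Fact p.Prime] (i : ℕ) : Gam p :=
  toLex (Finsupp.single i ⟨1, 1, (Fact.out : p.Prime).one_lt.ne' ∘ Nat.dvd_one.1, 1, by simp⟩)

/-- the monomial `t_i = t^(e_i)` -/
noncomputable def mono (p : ℕ) [Fact p.Prime] (i : ℕ) : Fld p := HahnSeries.single (expo p i) 1

/-- `s_0 x_0^d + ... + s_n x_n^d` -/
noncomputable def diagonal {k : Type} [Field k] (s : ℕ → k) (d n : ℕ) :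
    MvPolynomial (Fin (n + 1)) k := ∑ i : Fin (n + 1), C (s i) * X i ^ d

/-- Every finite extension of `K` has degree a power of `p`. -/
def IsSpecial (p : ℕ) (K : Type) [Field K] : Prop :=
  ∀ (E : Type) [Field E] [Algebra K E], FiniteDimensional K E → ∃ r : ℕ, Module.finrank K E = p ^ r

/-- The quadratic form `a_0 y_0^2 + ... + a_(m-1) y_(m-1)^2` over `k` is anisotropic over `K`. -/
def Aniso {k : Type} [Field k] (K : Type) [Field K] [Algebra k K] (a : ℕ → k) (m : ℕ) : Prop :=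
  ∀ y : ℕ → K, ∑ i ∈ Finset.range m, algebraMap k K (a i) * y i ^ 2 = 0 → ∀ i < m, y i = 0

/-- Hoffmann's theorem (with Springer's theorem): if `a` and `b` are anisotropic and
`dim a ≤ 2^r < dim b`, then `a` remains anisotropic over the function field of the quadric `b = 0`
and over an extension `K` of it without extensions of odd degree. -/
def Hoffmann (k : Type) [Field k] : Prop :=
  ∀ (m m' r : ℕ) (a b : ℕ → k), m ≤ 2 ^ r → 2 ^ r < m' → Aniso k a m → Aniso k b m' →
    ∃ (K : Type) (_ : Field K) (_ : Algebra k K), IsSpecial 2 K ∧ Aniso K a m ∧ ¬ Aniso K b m'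

/-- The quadratic form `∑_(l < w) x_l x_(n-l) + ∑_(w ≤ l ≤ n-w) a_(l-w) x_l^2` in `x_0, ..., x_n`. -/
noncomputable def form {k : Type} [Field k] (a : ℕ → k) (n w : ℕ) : MvPolynomial (Fin (n + 1)) k :=
  ∑ l ∈ Finset.univ.filter (fun l : Fin (n + 1) => (l : ℕ) < w), X l * X l.rev +
    ∑ l ∈ Finset.univ.filter (fun l : Fin (n + 1) => w ≤ (l : ℕ) ∧ (l : ℕ) + w ≤ n),
      C (a ((l : ℕ) - w)) * X l ^ 2

end Pool.Agent.T9h5.GS
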