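import Pool.Agent.T9h5.GS.Main

/-!
# Quadrics over arbitrary fields
-/

set_option autoImplicit false

namespace Pool.Agent.T9h5.GS

open MvPolynomial Pool.Agent.T9h5.KV

section

variable {k : Type} [Field k]

theorem coef_ne {m : ℕ} {a : ℕ → k} (h : Aniso k a m) {i : ℕ} (hi : i < m) : a i ≠ 0 := by
  classical
  intro h0
  have h1 := h (fun j => if j = i then 1 else 0) (by
    apply Finset.sum_eq_zero
    intro j _
    by_cases hj : j = i
    · subst hj
      simp [h0]
    · simp [hj]) i hi
  simp at h1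

theorem restr_form (a : ℕ → k) (n w i : ℕ) : restr i (form a n w) =
    ∑ l ∈ Finset.univ.filter (fun l : Fin (n + 1) => (l : ℕ) < w), sub k i l * sub k i l.rev +
    ∑ l ∈ Finset.univ.filter (fun l : Fin (n + 1) => w ≤ (l : ℕ) ∧ (l : ℕ) + w ≤ n),
      C (a ((l : ℕ) - w)) * sub k i l ^ 2 := by
  have h1 : ∀ F : MvPolynomial (Fin (n + 1)) k, restr i F = aeval (sub k i) F := fun _ => rfl
  rw [h1]
  unfold form
  rw [map_add, map_sum, map_sum]
  congr 1
  · apply Finset.sum_congr rfl
    intro l _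
    rw [map_mul, aeval_X, aeval_X]
  · apply Finset.sum_congr rfl
    intro l _
    rw [map_mul, map_pow, aeval_X, aeval_C]
    rfl

theorem form_iso_small (a : ℕ → k) (n w i : ℕ) (hw : 2 * w ≤ n + 1) (hi : i < w) :
    Iso (zeros (restr i (form a n w))) (affineSpace k (n - 1 - i)) := by
  classical
  have ha : n - i - i - 1 < n - i := by omega
  refine iso_linear' (by omega) ⟨n - i - i - 1, ha⟩ _ ?_
  have hsup : ∀ j : Fin (n + 1), (j : ℕ) ≠ n - i →
      sub k i j ∈ supported k ({(⟨n - i - i - 1, ha⟩ : Fin (n - i))}ᶜ : Set (Fin (n - i))) := by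
    intro j hj
    unfold sub
    split_ifs with h1 h2
    · apply Algebra.subset_adjoin
      refine ⟨_, ?_, rfl⟩
      intro h3
      have h4 := congrArg Fin.val h3
      simp only at h4
      omega
    · exact one_mem _
    · exact zero_mem _
  rw [restr_form]
  have hil : i < n + 1 := by omega
  rw [← Finset.add_sum_erase _ _ (a := (⟨i, hil⟩ : Fin (n + 1)))
    (by rw [Finset.mem_filter]; exact ⟨Finset.mem_univ _, hi⟩)]
  have h1 : sub k i (⟨i, hil⟩ : Fin (n + 1)) = 1 := sub_eq _ rfl
  have h2 : sub k i (Fin.rev (⟨i, hil⟩ : Fin (n + 1))) = X ⟨n - i - i - 1, ha⟩ := by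
    have h3 : i < ((Fin.rev (⟨i, hil⟩ : Fin (n + 1)) : Fin (n + 1)) : ℕ) := by
      rw [rev_val]
      change i < n - i
      omega
    unfold sub
    rw [dif_pos h3]
    congr 1
    apply Fin.ext
    change ((Fin.rev (⟨i, hil⟩ : Fin (n + 1)) : Fin (n + 1)) : ℕ) - i - 1 = n - i - i - 1
    rw [rev_val]
  rw [h1, h2, one_mul]
  have h3 : ∀ a b c : MvPolynomial (Fin (n - i)) k, a + b + c - a = b + c := by
    intro a b c
    ring
  rw [h3]
  apply add_mem
  · apply sum_mem
    intro l hl
    rw [Finset.mem_erase, Finset.mem_filter] at hl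
    obtain ⟨hl1, -, hl2⟩ := hl
    apply mul_mem
    · exact hsup _ (by omega)
    · apply hsup
      rw [rev_val]
      intro h4
      apply hl1
      apply Fin.ext
      change (l : ℕ) = i
      have := l.2
      omega
  · apply sum_mem
    intro l hl
    rw [Finset.mem_filter] at hl
    exact mul_mem (Subalgebra.algebraMap_mem _ (a ((l : ℕ) - w))) (pow_mem (hsup _ (by omega)) 2)

theorem form_xseq_mem (a : ℕ → ℕ → k) (w : ℕ → ℕ) (n : ℕ) (hw : 2 * w n ≤ n + 1) (m : ℤ)
    (hm : m + 1 ≤ w n) : xseq (fun n => form (a n) n (w n)) n ∈ Fil k m := by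
  unfold xseq
  dsimp only
  set W := w n with hW
  rcases Nat.eq_zero_or_pos n with hn | hn
  · subst hn
    have hW0 : W = 0 := by omega
    rw [Finset.sum_range_one, Finset.range_zero, Finset.sum_empty, sub_zero]
    apply mem_fil _ 0 (dim_zeros _)
    push_cast
    omega
  have h1 : ∑ i ∈ Finset.range (n + 1), cls (zeros (restr i (form (a n) n W))) (1 - n) =
      ∑ i ∈ Finset.range W, cls (affineSpace k (n - 1 - i)) (1 - n) +
      ∑ i ∈ Finset.Ico W (n + 1), cls (zeros (restr i (form (a n) n W))) (1 - n) := by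
    simp only [Finset.range_eq_Ico]
    rw [← Finset.sum_Ico_consecutive _ (Nat.zero_le W) (by omega : W ≤ n + 1)]
    congr 1
    apply Finset.sum_congr rfl
    intro i hi
    rw [Finset.mem_Ico] at hi
    exact cls_iso (form_iso_small (a n) n W i hw hi.2) _
  have h2 : ∑ j ∈ Finset.range n, cls (affineSpace k j) (1 - (n : ℤ)) =
      ∑ i ∈ Finset.range W, cls (affineSpace k (n - 1 - i)) (1 - n) +
      ∑ i ∈ Finset.Ico W n, cls (affineSpace k (n - 1 - i)) (1 - n) := by
    rw [← Finset.sum_range_reflect]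
    simp only [Finset.range_eq_Ico]
    rw [← Finset.sum_Ico_consecutive _ (Nat.zero_le W) (by omega : W ≤ n)]
  rw [h1, h2, add_sub_add_left_eq_sub]
  apply sub_mem
  · apply sum_mem
    intro i hi
    rw [Finset.mem_Ico] at hi
    apply mem_fil _ (n - i) (dim_zeros _)
    omega
  · apply sum_mem
    intro i hi
    rw [Finset.mem_Ico] at hi
    apply mem_fil _ (n - 1 - i) (dim_affine _)
    omega

theorem form_tends (a : ℕ → ℕ → k) (w : ℕ → ℕ) (hw : ∀ n, 2 * w n ≤ n + 1)
    (h : ToInfinity w) : Tends k (xseq (fun n => form (a n) n (w n))) 0 := by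
  intro m
  obtain ⟨N, hN⟩ := h (m + 1).toNat
  refine ⟨N, fun n hn => ?_⟩
  change _ = (0 : M k ⧸ Fil k m)
  rw [QuotientAddGroup.eq_zero_iff]
  apply form_xseq_mem a w n (hw n)
  have := hN n hn
  omega

end

section

variable {k K : Type} [Field k] [Field K] [Algebra k K] (V : TateCount k K)

/-- extension by zero -/
noncomputable def ext0 {n : ℕ} (x : Fin (n + 1) → K) (w i : ℕ) : K :=
  if h : w + i < n + 1 then x ⟨w + i, h⟩ else 0

theorem sum_mid (a : ℕ → k) (n w : ℕ) (hw : 2 * w ≤ n + 1) (x : Fin (n + 1) → K) :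
    ∑ l ∈ Finset.univ.filter (fun l : Fin (n + 1) => w ≤ (l : ℕ) ∧ (l : ℕ) + w ≤ n),
      algebraMap k K (a ((l : ℕ) - w)) * x l ^ 2 =
    ∑ i ∈ Finset.range (n + 1 - 2 * w), algebraMap k K (a i) * ext0 x w i ^ 2 := by
  refine Finset.sum_bij (fun l _ => (l : ℕ) - w) ?_ ?_ ?_ ?_
  · intro l hl
    rw [Finset.mem_filter] at hl
    rw [Finset.mem_range]
    omega
  · intro l hl l' hl' h
    rw [Finset.mem_filter] at hl hl'
    apply Fin.ext
    omega
  · intro i hi
    rw [Finset.mem_range] at hi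
    refine ⟨⟨w + i, by omega⟩, ?_, ?_⟩
    · rw [Finset.mem_filter]
      refine ⟨Finset.mem_univ _, ?_, ?_⟩
      · change w ≤ w + i
        omega
      · change w + i + w ≤ n
        omega
    · change w + i - w = i
      omega
  · intro l hl
    rw [Finset.mem_filter] at hl
    have h1 : ext0 x w ((l : ℕ) - w) = x l := by
      unfold ext0
      have := l.2
      rw [dif_pos (by omega)]
      congr 1
      apply Fin.ext
      change w + ((l : ℕ) - w) = l
      omega
    rw [h1]

theorem aeval_form (a : ℕ → k) (n w i : ℕ) (hw : 2 * w ≤ n + 1) (hi : w ≤ i)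
    (y : Fin (n - i) → K) :
    aeval y (restr i (form a n w)) =
      ∑ l ∈ Finset.range (n + 1 - 2 * w), algebraMap k K (a l) * ext0 (pt i y) w l ^ 2 := by
  rw [aeval_restr, ← sum_mid a n w hw]
  unfold form
  rw [map_add, map_sum, map_sum, Finset.sum_eq_zero, zero_add]
  · apply Finset.sum_congr rfl
    intro l _
    rw [map_mul, map_pow, aeval_X, aeval_C]
  · intro l hl
    rw [Finset.mem_filter] at hl
    have h1 : pt i y l = 0 := by
      unfold pt
      rw [dif_neg (by omega), if_neg (by omega)]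
    rw [map_mul, aeval_X, h1, zero_mul]

theorem tau_mid (a : ℕ → k) (n w i : ℕ) (hw : 2 * w ≤ n + 1) (hi : w ≤ i) (hi' : i + w ≤ n)
    (h : Aniso K a (n + 1 - 2 * w)) : V.τ (zeros (restr i (form a n w))) = 0 := by
  apply noPoint
  intro y hy
  rw [aeval_form a n w i hw hi] at hy
  have h1 := h _ hy (i - w) (by omega)
  unfold ext0 at h1
  rw [dif_pos (by omega)] at h1
  unfold pt at h1
  rw [dif_neg, if_pos] at h1
  · exact one_ne_zero h1
  · change w + (i - w) = i
    omega
  · change ¬ (i < w + (i - w))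
    omega

theorem form_restr_large (a : ℕ → k) (n w i : ℕ) (hi : n < i + w) (hw : 2 * w ≤ n + 1) :
    restr i (form a n w) = 0 := by
  rw [restr_form, Finset.sum_eq_zero, Finset.sum_eq_zero, add_zero]
  · intro l hl
    rw [Finset.mem_filter] at hl
    rw [sub_lt l (by omega)]
    simp
  · intro l hl
    rw [Finset.mem_filter] at hl
    rw [sub_lt l (by omega), zero_mul]

/-- anisotropic part -/
theorem phi_form_aniso (a : ℕ → k) (n w : ℕ) (hw : 2 * w + 2 ≤ n)
    (h : Aniso K a (n + 1 - 2 * w)) :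
    phi V w (∑ i ∈ Finset.range (n + 1), cls (zeros (restr i (form a n w))) (1 - n)) = 0 := by
  rw [map_sum]
  apply Finset.sum_eq_zero
  intro i hi
  rw [Finset.mem_range] at hi
  rw [phi_cls]
  rcases lt_or_ge i w with h2 | h2
  · rw [V.iso _ _ (form_iso_small a n w i (by omega) h2), tau_affine, cf_pow _ _ _ (by omega),
      if_neg (by omega)]
  · rcases le_or_gt (i + w) n with h3 | h3
    · rw [tau_mid V a n w i (by omega) h2 h3 h, cf_zero]
    · rw [form_restr_large a n w i h3 (by omega), V.iso _ _ (iso_zero _), tau_affine,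
        cf_pow _ _ _ (by omega), if_neg (by omega)]

end

end Pool.Agent.T9h5.GS
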