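import Pool.Agent.T9h5.GS.Main

/-!
# The generic diagonal forms have no rational points
-/

set_option autoImplicit false

namespace Pool.Agent.T9h5.GS

open MvPolynomial Pool.Agent.T9h5.KV

section

variable (p : ℕ) [Fact p.Prime]

theorem expo_ne (d : ℕ) (hd : p ∣ d) (i j : ℕ) (hij : i ≠ j) (a b : Gam p) :
    expo p i + d • a ≠ expo p j + d • b := by
  intro h
  have h1 : ((ofLex (expo p i + d • a)) i : ℚ) = ((ofLex (expo p j + d • b)) i : ℚ) := by rw [h]
  have e1 : ((ofLex (expo p i + d • a)) i : ℚ) = 1 + d * ((ofLex a) i : ℚ) := by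
    have : (ofLex (expo p i + d • a)) i = (ofLex (expo p i)) i + d • (ofLex a) i := rfl
    rw [this]
    have h2 : ((ofLex (expo p i)) i : ℚ) = 1 := by
      unfold expo
      rw [ofLex_toLex, Finsupp.single_eq_same]
    push_cast
    rw [h2]
    simp
  have e2 : ((ofLex (expo p j + d • b)) i : ℚ) = d * ((ofLex b) i : ℚ) := by
    have : (ofLex (expo p j + d • b)) i = (ofLex (expo p j)) i + d • (ofLex b) i := rfl
    rw [this]
    have h2 : ((ofLex (expo p j)) i : ℚ) = 0 := by
      unfold expo
      rw [ofLex_toLex, Finsupp.single_eq_of_ne (by omega)]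
      rfl
    push_cast
    rw [h2]
    simp
  rw [e1, e2] at h1
  obtain ⟨m, hm, c, hc⟩ := ((ofLex b) i - (ofLex a) i : Zp p).2
  obtain ⟨e, rfl⟩ := hd
  apply hm
  have h2 : (m : ℚ) = (p : ℚ) * (e * c) := by
    rw [← hc]
    push_cast at h1 ⊢
    linear_combination (m : ℚ) * h1
  have h3 : (m : ℤ) = (p : ℤ) * (e * c) := by exact_mod_cast h2
  exact Int.natCast_dvd_natCast.1 ⟨_, h3⟩

theorem diagonal_noPoints {k : Type} [Field k] [Algebra k (Fld p)] (s : ℕ → k)
    (hs : ∀ i, algebraMap k (Fld p) (s i) = mono p i) (d n : ℕ) (hd0 : d ≠ 0) (hd : p ∣ d) :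
    NoPoints (Fld p) (diagonal s d n) := by
  classical
  intro x hx
  by_contra hne
  have hex : ∃ i, x i ≠ 0 := by
    by_contra h
    push Not at h
    exact hne (funext h)
  let S : Finset (Fin (n + 1)) := Finset.univ.filter (fun i => x i ≠ 0)
  have hS : S.Nonempty := by
    obtain ⟨i, hi⟩ := hex
    exact ⟨i, Finset.mem_filter.2 ⟨Finset.mem_univ _, hi⟩⟩
  let T : Fin (n + 1) → Fld p := fun i => HahnSeries.single (expo p i) 1 * x i ^ d
  have ht : ∀ i : Fin (n + 1), (HahnSeries.single (expo p i) (1 : ℂ) : Fld p) ≠ 0 :=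
    fun i => HahnSeries.single_ne_zero one_ne_zero
  have hT : ∀ i, x i ≠ 0 → (T i).order = expo p i + d • (x i).order := by
    intro i hi
    change (HahnSeries.single (expo p i) (1 : ℂ) * x i ^ d).order = _
    rw [HahnSeries.order_mul (ht i) (pow_ne_zero _ hi), HahnSeries.order_pow,
      HahnSeries.order_single one_ne_zero]
  obtain ⟨i, hi, hmin⟩ := Finset.exists_min_image S (fun i => (T i).order) hS
  have hi' : x i ≠ 0 := (Finset.mem_filter.1 hi).2
  have hsum : ∑ j, T j = 0 := by
    rw [← hx]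
    unfold diagonal
    rw [map_sum]
    apply Finset.sum_congr rfl
    intro j _
    rw [map_mul, map_pow, aeval_X, aeval_C, hs]
    rfl
  have h1 : (∑ j, T j).coeff (T i).order = (T i).coeff (T i).order := by
    rw [HahnSeries.coeff_sum]
    apply Finset.sum_eq_single i
    · intro j _ hj
      by_cases hxj : x j = 0
      · change (HahnSeries.single (expo p j) (1 : ℂ) * x j ^ d).coeff _ = 0
        rw [hxj, zero_pow hd0, mul_zero]
        rfl
      · apply HahnSeries.coeff_eq_zero_of_lt_order
        have h2 := hmin j (Finset.mem_filter.2 ⟨Finset.mem_univ _, hxj⟩)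
        apply lt_of_le_of_ne h2
        rw [hT i hi', hT j hxj]
        exact expo_ne p d hd i j (fun h => hj (Fin.ext h.symm)) _ _
    · intro h
      exact absurd (Finset.mem_univ _) h
  rw [hsum] at h1
  have h3 : (T i).coeff (T i).order = 0 := by rw [← h1]; rfl
  rw [HahnSeries.coeff_order_eq_zero] at h3
  exact mul_ne_zero (ht i) (pow_ne_zero _ hi') h3

instance : CharZero (Fld p) :=
  charZero_of_injective_algebraMap (algebraMap ℂ (Fld p)).injective

end

end Pool.Agent.T9h5.GS
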