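import Pool.Agent.T9h5.GS.Defs

/-!
# Coefficients of `τ` as homomorphisms on the completion
-/

set_option autoImplicit false

namespace Pool.Agent.T9h5.GS

open MvPolynomial Pool.Agent.T9h5.KV

section hom

variable {k K : Type} [Field k] [Field K] [Algebra k K] (V : TateCount k K)

/-- the coefficient of `u^(-j)`, as a homomorphism -/
noncomputable def phi (j : ℕ) : M k →+ ℤ :=
  QuotientAddGroup.lift (AddSubgroup.closure {r | Rel k r})
    (FreeAbelianGroup.lift (fun p : Aff k × ℤ => cf (V.τ p.1) (p.2 + j))) (by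
      intro a ha
      have h1 : AddSubgroup.closure {r | Rel k r} ≤
          (FreeAbelianGroup.lift (fun p : Aff k × ℤ => cf (V.τ p.1) (p.2 + j))).ker := by
        rw [AddSubgroup.closure_le]
        rintro r hr
        rw [SetLike.mem_coe, AddMonoidHom.mem_ker]
        cases hr with
        | iso X Y i h =>
          rw [map_sub, FreeAbelianGroup.lift_apply_of, FreeAbelianGroup.lift_apply_of, V.iso X Y h,
            sub_self]
        | cut X Z U i h =>
          rw [map_sub, map_sub, FreeAbelianGroup.lift_apply_of, FreeAbelianGroup.lift_apply_of,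
            FreeAbelianGroup.lift_apply_of, V.cut X Z U h, cf_add]
          ring
        | line X Y i h =>
          rw [map_sub, FreeAbelianGroup.lift_apply_of, FreeAbelianGroup.lift_apply_of, V.line X Y h,
            cf_X_mul, show i + (j : ℤ) + 1 = i + 1 + j by ring, sub_self]
      exact h1 ha)

theorem phi_cls (j : ℕ) (X : Aff k) (i : ℤ) : phi V j (cls X i) = cf (V.τ X) (i + j) := by
  unfold phi cls
  exact FreeAbelianGroup.lift_apply_of _ _

theorem phi_fil (j : ℕ) (a : M k) (ha : a ∈ Fil k (j + 1)) : phi V j a = 0 := by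
  have h1 : Fil k (j + 1) ≤ (phi V j).ker := by
    unfold Fil
    rw [AddSubgroup.closure_le]
    rintro a ⟨X, i, D, h1, h2, rfl⟩
    rw [SetLike.mem_coe, AddMonoidHom.mem_ker, phi_cls]
    unfold cf
    rw [if_pos (by omega)]
    apply Polynomial.coeff_eq_zero_of_natDegree_lt
    have := V.degree X D h1
    omega
  exact h1 ha

theorem tau_affine (j : ℕ) : V.τ (affineSpace k j) = Polynomial.X ^ j := by
  induction j with
  | zero =>
    rw [pow_zero]
    exact V.point _ ⟨MvPolynomial.isEmptyAlgEquiv k (Fin 0)⟩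
  | succ j ih =>
    rw [V.line (affineSpace k j) (affineSpace k (j + 1))
      ⟨(MvPolynomial.finSuccEquiv k j).symm⟩, ih, pow_succ']

theorem phi_proj (j n : ℕ) (hn : j < n) :
    phi V j (∑ l ∈ Finset.range n, cls (affineSpace k l) (1 - n)) = 1 := by
  rw [map_sum, Finset.sum_eq_single (n - 1 - j)]
  · rw [phi_cls, tau_affine, cf_pow _ _ _ hn, if_pos (by omega)]
  · intro l _ hl
    rw [phi_cls, tau_affine, cf_pow _ _ _ hn, if_neg (by omega)]
  · intro h
    exact absurd (Finset.mem_range.2 (by omega)) h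

theorem eq_of_hasLimit (x : ℕ → M k) (h : HasLimit k x) (j : ℕ) :
    ∃ (c : ℤ) (N : ℕ), ∀ n, N ≤ n → phi V j (x n) = c := by
  obtain ⟨y, -, hy⟩ := h
  obtain ⟨N, hN⟩ := hy (j + 1)
  refine ⟨phi V j (x N), N, fun n hn => ?_⟩
  have h1 : (QuotientAddGroup.mk (x n) : M k ⧸ Fil k (j + 1)) = QuotientAddGroup.mk (x N) := by
    rw [hN n hn, hN N le_rfl]
  rw [QuotientAddGroup.eq] at h1
  have h2 := phi_fil V j _ h1
  rw [map_add, map_neg] at h2
  omega

theorem eq_of_tends_zero (x : ℕ → M k) (h : Tends k x 0) (j : ℕ) :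
    ∃ N : ℕ, ∀ n, N ≤ n → phi V j (x n) = 0 := by
  obtain ⟨N, hN⟩ := h (j + 1)
  refine ⟨N, fun n hn => ?_⟩
  have h1 : (QuotientAddGroup.mk (x n) : M k ⧸ Fil k (j + 1)) = 0 := hN n hn
  rw [QuotientAddGroup.eq_zero_iff] at h1
  exact phi_fil V j _ h1

end hom

section pts

variable {k K : Type} [Field k] [Field K] [Algebra k K] (V : TateCount k K)

/-- the point of the stratum -/
noncomputable def pt {n : ℕ} (i : ℕ) (y : Fin (n - i) → K) (j : Fin (n + 1)) : K :=
  if h : i < (j : ℕ) then y (⟨(j : ℕ) - i - 1, by omega⟩ : Fin (n - i))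
    else if (j : ℕ) = i then 1 else 0

theorem aeval_restr {n : ℕ} (i : ℕ) (F : MvPolynomial (Fin (n + 1)) k) (y : Fin (n - i) → K) :
    aeval y (restr i F) = aeval (pt i y) F := by
  unfold restr
  have h1 : (aeval y : MvPolynomial (Fin (n - i)) k →ₐ[k] K).comp
      (aeval (fun j : Fin (n + 1) =>
        if h : i < (j : ℕ) then X (⟨(j : ℕ) - i - 1, by omega⟩ : Fin (n - i))
        else if (j : ℕ) = i then 1 else 0)) = aeval (pt i y) := by
    apply MvPolynomial.algHom_ext
    intro j
    rw [AlgHom.comp_apply, aeval_X, aeval_X]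
    unfold pt
    split_ifs <;> simp
  exact congrArg (fun f => f F) h1

theorem noPoint {m : ℕ} (F : MvPolynomial (Fin m) k)
    (h : ∀ y : Fin m → K, aeval y F ≠ 0) : V.τ (zeros F) = 0 := by
  apply V.empty
  constructor
  intro f
  let g : MvPolynomial (Fin m) k →ₐ[k] K :=
    AlgHom.comp (f : (MvPolynomial (Fin m) k ⧸ (Ideal.span {F}).radical) →ₐ[k] K)
      (Ideal.Quotient.mkₐ k (Ideal.span {F}).radical)
  have h1 : g = aeval (fun i => g (X i)) := by
    apply MvPolynomial.algHom_ext
    intro i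
    rw [aeval_X]
  have h2 : g F = 0 := by
    have h3 : Ideal.Quotient.mkₐ k (Ideal.span {F}).radical F = 0 := by
      rw [Ideal.Quotient.mkₐ_eq_mk, Ideal.Quotient.eq_zero_iff_mem]
      exact Ideal.le_radical (Ideal.subset_span rfl)
    change f (Ideal.Quotient.mkₐ k (Ideal.span {F}).radical F) = 0
    rw [h3]
    exact map_zero f
  rw [h1] at h2
  exact h _ h2

/-- a hypersurface without real points -/
theorem phi_aniso (j : ℕ) {n : ℕ} (F : MvPolynomial (Fin (n + 1)) k)
    (h : ∀ x : Fin (n + 1) → K, aeval x F = 0 → x = 0) (e : ℤ) :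
    phi V j (∑ i ∈ Finset.range (n + 1), cls (zeros (restr i F)) e) = 0 := by
  rw [map_sum]
  apply Finset.sum_eq_zero
  intro i hi
  rw [Finset.mem_range] at hi
  rw [phi_cls, noPoint, cf_zero]
  intro y hy
  rw [aeval_restr] at hy
  have h1 := congrFun (h _ hy) ⟨i, hi⟩
  unfold pt at h1
  simp at h1

theorem phi_xseq_aniso (F : ∀ n, MvPolynomial (Fin (n + 1)) k) (j n : ℕ) (hn : j < n)
    (h : ∀ x : Fin (n + 1) → K, aeval x (F n) = 0 → x = 0) : phi V j (xseq F n) = -1 := by
  unfold xseq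
  rw [map_sub, phi_aniso V j (F n) h, phi_proj V j n hn]
  norm_num

end pts

section

variable {k K : Type} [Field k] [Field K] [Algebra k K]

theorem real_hasPoint [CharZero K] (d m : ℕ) (hd0 : 2 ≤ d) : HasPoint K (real k d (m + 1)) := by
  classical
  let y : Fin (m + 1 - 0) → K := fun l => if (l : ℕ) = m then 1 else 0
  have hpt : ∀ l : Fin (m + 2), pt 0 y l = if (l : ℕ) = 0 ∨ (l : ℕ) = m + 1 then 1 else 0 := by
    intro l
    unfold pt
    by_cases h : 0 < (l : ℕ)
    · rw [dif_pos h]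
      change (if (l : ℕ) - 0 - 1 = m then (1 : K) else 0) = _
      by_cases h1 : (l : ℕ) = m + 1
      · rw [if_pos (by omega), if_pos (by omega)]
      · rw [if_neg (by omega), if_neg (by omega)]
    · rw [dif_neg h, if_pos (by omega), if_pos (by omega)]
  refine ⟨y, ?_, ⟨m, by omega⟩, ?_⟩
  · rw [aeval_restr]
    unfold real diag
    rw [map_sum, Fin.sum_univ_succ, Fin.sum_univ_castSucc]
    have h1 : ∀ l : Fin m, aeval (pt 0 y) (C (if ((l.castSucc.succ : Fin (m + 2)) : ℕ) = m + 1 then
        (-1 : k) else 1) * X (l.castSucc.succ : Fin (m + 2)) ^ d) = 0 := by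
      intro l
      have h3 : pt 0 y (l.castSucc.succ : Fin (m + 2)) = 0 := by
        rw [hpt, if_neg]
        have := l.2
        rw [Fin.val_succ, Fin.val_castSucc]
        omega
      rw [map_mul, map_pow, aeval_X, h3, zero_pow (by omega), mul_zero]
    rw [Finset.sum_congr rfl fun l _ => h1 l, Finset.sum_const_zero, zero_add]
    rw [map_mul, map_mul, map_pow, map_pow, aeval_X, aeval_X, hpt, hpt, aeval_C, aeval_C]
    simp
  · unfold real
    rw [restr_diag, map_sum, map_sum, Finset.sum_eq_single (Fin.last (m + 1))]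
    · have h1 : sub k 0 (Fin.last (m + 1)) = X (⟨m, by omega⟩ : Fin (m + 1 - 0)) := by
        unfold sub
        rw [dif_pos (by simp)]
        rfl
      rw [h1, Derivation.leibniz, Derivation.leibniz_pow, pderiv_X_self, pderiv_C]
      simp only [Fin.val_last, if_true, smul_eq_mul, nsmul_eq_mul, mul_one, mul_zero, add_zero,
        map_mul, map_natCast, map_pow, aeval_X, map_neg, map_one]
      have h2 : y ⟨m, by omega⟩ = 1 := by simp [y]
      rw [h2]
      have h3 : (d : K) ≠ 0 := by exact_mod_cast (by omega : d ≠ 0)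
      simpa using h3
    · intro l _ hl
      have hl' : (l : ℕ) ≠ m + 1 := fun h => hl (Fin.ext h)
      have h1 : pderiv (⟨m, by omega⟩ : Fin (m + 1 - 0)) (sub k 0 l) = 0 := by
        unfold sub
        by_cases h : 0 < (l : ℕ)
        · rw [dif_pos h, pderiv_X_of_ne]
          intro h2
          have h3 := congrArg Fin.val h2
          simp only at h3
          omega
        · rw [dif_neg h, if_pos (by omega)]
          simp
      rw [Derivation.leibniz, Derivation.leibniz_pow, h1, pderiv_C]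
      simp
    · intro h
      exact absurd (Finset.mem_univ _) h

end

section

variable {k K : Type} [Field k] [Field K] [Algebra k K] (V : TateCount k K)

theorem phi_real {n : ℕ} (hn : 1 ≤ n) (F : ∀ n, MvPolynomial (Fin (n + 1)) k)
    (h : HasPoint K (F n)) : 0 ≤ phi V 0 (xseq F n) := by
  obtain ⟨m, rfl⟩ : ∃ m, n = m + 1 := ⟨n - 1, by omega⟩
  unfold xseq
  rw [map_sub, phi_proj V 0 (m + 1) (by omega), map_sum, Finset.sum_range_succ']
  have hcf : ∀ P : Polynomial ℤ, cf P (1 - ((m + 1 : ℕ) : ℤ) + (0 : ℕ)) = P.coeff m := by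
    intro P
    unfold cf
    rw [if_pos (by push_cast; omega)]
    congr 1
    push_cast
    omega
  have h1 : 0 ≤ ∑ i ∈ Finset.range (m + 1),
      phi V 0 (cls (zeros (restr (i + 1) (F (m + 1)))) (1 - ((m + 1 : ℕ) : ℤ))) := by
    apply Finset.sum_nonneg
    intro i _
    rw [phi_cls, hcf]
    apply V.nonneg
    refine (dim_zeros _).trans ?_
    exact_mod_cast (by omega : m + 1 - (i + 1) ≤ m)
  have h2 : 1 ≤ phi V 0 (cls (zeros (restr 0 (F (m + 1)))) (1 - ((m + 1 : ℕ) : ℤ))) := by
    obtain ⟨y, hy, i, hi⟩ := h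
    rw [phi_cls, hcf]
    exact V.smoothPoint m (restr 0 (F (m + 1))) y hy ⟨i, hi⟩
  omega

include V in
theorem no_limit (F : ∀ n, MvPolynomial (Fin (n + 1)) k)
    (h : ∀ N, ∃ n, N ≤ n ∧ NoPoints K (F n)) (h' : ∀ N, ∃ n, N ≤ n ∧ HasPoint K (F n)) :
    ¬ HasLimit k (xseq F) := by
  intro hl
  obtain ⟨c, N, hN⟩ := eq_of_hasLimit V _ hl 0
  obtain ⟨n, hn, h1⟩ := h (max N 1)
  obtain ⟨n', hn', h2⟩ := h' (max N 1)
  have e1 := hN n ((le_max_left _ _).trans hn)
  rw [phi_xseq_aniso V F 0 n ((le_max_right N 1).trans hn) h1] at e1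
  have e2 := hN n' ((le_max_left _ _).trans hn')
  have e3 := phi_real V ((le_max_right N 1).trans hn') F h2
  omega

include V in
theorem not_zero (F : ∀ n, MvPolynomial (Fin (n + 1)) k)
    (h : ∀ N, ∃ n, N ≤ n ∧ NoPoints K (F n)) : ¬ Tends k (xseq F) 0 := by
  intro hl
  obtain ⟨N, hN⟩ := eq_of_tends_zero V _ hl 0
  obtain ⟨n, hn, h1⟩ := h (max N 1)
  have e1 := hN n ((le_max_left _ _).trans hn)
  rw [phi_xseq_aniso V F 0 n ((le_max_right N 1).trans hn) h1] at e1
  omega

end

end Pool.Agent.T9h5.GS
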